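import Pool.Agent.H970R2.X.Corl

set_option autoImplicit false

/-! Sign changes of the Liouville function in short ranges, by dilation (helper13). -/

namespace Pool.Agent.K7.H13.PL

open Finset
open Pool.Agent.H376R2.MR (lam)

/-- the Liouville function along `d u + c` -/
def yy (d c u : ℕ) : ℤ := lam (d * u + c)

lemma lam_mul' {m n : ℕ} (hm : m ≠ 0) (hn : n ≠ 0) : lam (m * n) = lam m * lam n := by
  unfold lam
  rw [ArithmeticFunction.cardFactors_mul hm hn, pow_add]

lemma lam_pm (n : ℕ) : lam n = 1 ∨ lam n = -1 := by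
  unfold lam
  exact neg_one_pow_eq_or ℤ _

/-- dilation -/
def phi (d c r u : ℕ) : ℕ := r * (d * u + c) + u

lemma yy_phi {d c r u : ℕ} (h : d * u + c ≠ 0) : yy d c (phi d c r u) = lam (d * r + 1) * yy d c u := by
  unfold yy phi
  rw [← lam_mul' (by omega) h]
  congr 1
  ring

lemma phi_succ (d c r u : ℕ) : phi d c r (u + 1) = phi d c r u + (d * r + 1) := by
  unfold phi
  ring

lemma phi_mono (d c r : ℕ) : Monotone (phi d c r) := by
  apply monotone_nat_of_le_succ
  intro u
  rw [phi_succ]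
  omega

/-- a sequence that differs at the ends of a block changes inside -/
lemma exists_change (y : ℕ → ℤ) (a n : ℕ) (h : y a ≠ y (a + n)) :
    ∃ v, a ≤ v ∧ v < a + n ∧ y v ≠ y (v + 1) := by
  by_contra hcon
  push Not at hcon
  have : ∀ m, m ≤ n → y (a + m) = y a := by
    intro m
    induction m with
    | zero => intro _; rfl
    | succ m ih =>
      intro hm
      have h1 := hcon (a + m) (by omega) (by omega)
      rw [← ih (by omega), h1]
      rfl
  exact h (this n le_rfl).symm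

lemma block_change {d c r u : ℕ} (h : d * u + c ≠ 0) (hch : yy d c u ≠ yy d c (u + 1)) :
    ∃ v, phi d c r u ≤ v ∧ v < phi d c r (u + 1) ∧ yy d c v ≠ yy d c (v + 1) := by
  rw [phi_succ]
  apply exists_change
  rw [← phi_succ, yy_phi h, yy_phi (by nlinarith [Nat.pos_of_ne_zero h])]
  intro h2
  apply hch
  have h3 : lam (d * r + 1) ≠ 0 := by
    rcases lam_pm (d * r + 1) with h | h <;> rw [h] <;> norm_num
  exact mul_left_cancel₀ h3 h2

/-- changes in a range of indices -/
noncomputable def CH (d c A B : ℕ) : Finset ℕ := (Ico A B).filter (fun u => yy d c u ≠ yy d c (u + 1))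

/-- changes at the scale `M` give changes in a short range after `k` -/
lemma transfer {d c k M₀ M₁ R L : ℕ} (hd : 1 ≤ d) (hM0 : 1 ≤ M₀)
    (hM1 : M₁ ≤ k) (hR : ∀ u, M₀ ≤ u → k ≤ R * (d * u + c))
    (hL : d * M₁ + c + d * R + 1 ≤ L) :
    (CH d c M₀ M₁).card ≤ (R + 1) * (CH d c k (k + L)).card := by
  classical
  -- the factor
  set rr : ℕ → ℕ := fun u => (k - u + (d * u + c) - 1) / (d * u + c) with hrr
  have hrr1 : ∀ u, M₀ ≤ u → u < M₁ → k ≤ phi d c (rr u) u ∧ phi d c (rr u) u < k + (d * u + c) ∧ rr u ≤ R := by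
    intro u h0 h1
    have hpos : 0 < d * u + c := by
      have : 1 ≤ d * u := Nat.mul_pos hd (by omega)
      omega
    have e1 : rr u * (d * u + c) ≤ k - u + (d * u + c) - 1 := Nat.div_mul_le_self _ _
    have e2 : k - u + (d * u + c) - 1 < (rr u + 1) * (d * u + c) := by
      exact lt_of_lt_of_eq (Nat.lt_mul_div_succ (k - u + (d * u + c) - 1) hpos) (mul_comm _ _)
    have e3 : (rr u + 1) * (d * u + c) = rr u * (d * u + c) + (d * u + c) := by ring
    unfold phi
    refine ⟨by omega, by omega, ?_⟩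
    by_contra hcon
    push Not at hcon
    have e4 : (R + 1) * (d * u + c) ≤ rr u * (d * u + c) := Nat.mul_le_mul_right _ hcon
    have e5 : (R + 1) * (d * u + c) = R * (d * u + c) + (d * u + c) := by ring
    have := hR u h0
    omega
  have hex : ∀ u ∈ CH d c M₀ M₁, ∃ v, phi d c (rr u) u ≤ v ∧ v < phi d c (rr u) (u + 1) ∧
      yy d c v ≠ yy d c (v + 1) := by
    intro u hu
    unfold CH at hu
    rw [mem_filter, mem_Ico] at hu
    have hpos : d * u + c ≠ 0 := by
      have : 1 ≤ d * u := Nat.mul_pos hd (by omega)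
      omega
    exact block_change hpos hu.2
  choose! g hg using hex
  have hmaps : ∀ u ∈ CH d c M₀ M₁, (rr u, g u) ∈ range (R + 1) ×ˢ CH d c k (k + L) := by
    intro u hu
    obtain ⟨g1, g2, g3⟩ := hg u hu
    have hu' := hu
    unfold CH at hu'
    rw [mem_filter, mem_Ico] at hu'
    obtain ⟨f1, f2, f3⟩ := hrr1 u hu'.1.1 hu'.1.2
    rw [mem_product, mem_range]
    refine ⟨by show rr u < R + 1; omega, ?_⟩
    show g u ∈ CH d c k (k + L)
    unfold CH
    rw [mem_filter, mem_Ico]
    refine ⟨⟨by omega, ?_⟩, g3⟩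
    rw [phi_succ] at g2
    have h1 : d * u ≤ d * M₁ := Nat.mul_le_mul_left _ hu'.1.2.le
    have h2 : d * rr u ≤ d * R := Nat.mul_le_mul_left _ f3
    omega
  have hinj : Set.InjOn (fun u => (rr u, g u)) (CH d c M₀ M₁ : Set ℕ) := by
    have key : ∀ u ∈ CH d c M₀ M₁, ∀ u' ∈ CH d c M₀ M₁, u < u' → rr u = rr u' → g u ≠ g u' := by
      intro u hu u' hu' hlt he
      obtain ⟨-, g2, -⟩ := hg u hu
      obtain ⟨g1', -, -⟩ := hg u' hu'
      have : phi d c (rr u) (u + 1) ≤ phi d c (rr u) u' := phi_mono d c _ (by omega)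
      rw [he] at this g2
      omega
    intro u hu u' hu' h
    simp only [Prod.mk.injEq] at h
    rcases lt_trichotomy u u' with h1 | h1 | h1
    · exact absurd h.2 (key u hu u' hu' h1 h.1)
    · exact h1
    · exact absurd h.2.symm (key u' hu' u hu h1 h.1.symm)
  have := Finset.card_le_card_of_injOn (fun u => (rr u, g u)) hmaps hinj
  rw [card_product, card_range] at this
  exact this

/-- sign changes at all scales (helper970) -/
lemma changes_all_scales (d c : ℕ) (hd : 1 ≤ d) : ∃ (δ : ℝ) (N₁ : ℕ), 0 < δ ∧ ∀ N : ℕ, N₁ ≤ N →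
    δ * N ≤ ((CH d c 1 (N + 1)).card : ℝ) := by
  classical
  obtain ⟨δ, N₁, hδ, h⟩ := Pool.Agent.H970R2.X.lam_forms {(d, c), (d, c + d)} ⟨(d, c), by simp⟩
    (by
      intro f hf
      simp only [mem_insert, mem_singleton] at hf
      rcases hf with rfl | rfl <;> exact hd)
    (by
      intro f hf g hg hne
      simp only [mem_insert, mem_singleton] at hf hg
      rcases hf with rfl | rfl <;> rcases hg with rfl | rfl
      · exact absurd rfl hne
      · show d * (c + d) ≠ d * c
        nlinarith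
      · show d * c ≠ d * (c + d)
        nlinarith
      · exact absurd rfl hne) (-1) (Or.inr rfl)
  refine ⟨δ, N₁, hδ, fun N hN => (h N hN).trans (le_of_eq ?_)⟩
  congr 1
  unfold CH
  have hI : Ico 1 (N + 1) = Icc 1 N := by
    ext n; simp only [mem_Ico, mem_Icc]; omega
  rw [hI]
  congr 1
  apply filter_congr
  intro n _
  have hne : (d, c) ≠ (d, c + d) := by
    intro h
    simp only [Prod.mk.injEq] at h
    omega
  rw [prod_insert (by rw [mem_singleton]; exact hne), prod_singleton]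
  show lam (d * n + c) * lam (d * n + (c + d)) = -1 ↔ yy d c n ≠ yy d c (n + 1)
  have e : lam (d * n + (c + d)) = yy d c (n + 1) := by
    unfold yy; congr 1; ring
  rw [e]
  change yy d c n * yy d c (n + 1) = -1 ↔ _
  have h1 : yy d c n = 1 ∨ yy d c n = -1 := lam_pm _
  have h2 : yy d c (n + 1) = 1 ∨ yy d c (n + 1) = -1 := lam_pm _
  rcases h1 with h1 | h1 <;> rcases h2 with h2 | h2 <;> rw [h1, h2] <;> norm_num

/-- **sign changes in short ranges**: at least `c₁ k / p ^ 2` in `[k, k + k / p)` -/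
theorem changes_local (d c : ℕ) (hd : 1 ≤ d) : ∃ c₁ : ℝ, 0 < c₁ ∧ ∀ p : ℕ, 1 ≤ p → ∃ k₀ : ℕ, ∀ k : ℕ, k₀ ≤ k →
    c₁ * k / p ^ 2 ≤ ((CH d c k (k + k / p)).card : ℝ) := by
  classical
  obtain ⟨δ₀, N₁, hδ₀, h⟩ := changes_all_scales d c hd
  set δ : ℝ := min δ₀ 1 with hδdef
  have hδ : 0 < δ := lt_min hδ₀ one_pos
  have hδ1 : δ ≤ 1 := min_le_right _ _
  have hdr : (1 : ℝ) ≤ d := by exact_mod_cast hd
  -- `M = k / (8 d p)`, `θ = δ / 4`, `R = ⌈64 p / δ⌉`
  refine ⟨δ ^ 2 / (4096 * d ^ 2), by positivity, fun p hp => ?_⟩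
  have hpr : (1 : ℝ) ≤ p := by exact_mod_cast hp
  set R : ℕ := ⌈64 * p * d / δ⌉₊ with hR
  have hRl : 64 * p * d / δ ≤ R := Nat.le_ceil _
  have hRu : (R : ℝ) ≤ 64 * p * d / δ + 1 := (Nat.ceil_lt_add_one (by positivity)).le
  -- largeness
  refine ⟨⌈(8 * d * p) * (N₁ + 1 + 8 / δ + 8) + 8 * p * (c + d * R + 2 + d) + (8 * d * p)⌉₊, fun k hk => ?_⟩
  have hk' : (8 * d * p) * (N₁ + 1 + 8 / δ + 8) + 8 * p * (c + d * R + 2 + d) + (8 * d * p) ≤ (k : ℝ) :=
    (Nat.le_ceil _).trans (by exact_mod_cast hk)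
  set M : ℕ := k / (8 * d * p) with hM
  have hdp : 0 < 8 * d * p := by positivity
  have hdpr : (0 : ℝ) < 8 * d * p := by positivity
  have hMu : (M : ℝ) ≤ k / (8 * d * p) := by
    refine (Nat.cast_div_le).trans (le_of_eq ?_)
    push_cast; ring
  have hMl : (k : ℝ) / (8 * d * p) - 1 ≤ M := by
    have h1 : k < (8 * d * p) * (M + 1) := Nat.lt_mul_div_succ k hdp
    have h2 : (k : ℝ) < (8 * d * p) * (M + 1) := by exact_mod_cast h1
    rw [sub_le_iff_le_add, div_le_iff₀ hdpr]
    linarith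
  have hq : (0 : ℝ) ≤ 8 * p * (c + d * R + 2 + d) := by positivity
  have hMbig : (N₁ : ℝ) + 1 + 8 / δ + 8 ≤ M := by
    have h1 : (N₁ : ℝ) + 1 + 8 / δ + 8 + 1 ≤ k / (8 * d * p) := by
      rw [le_div_iff₀ hdpr]
      linarith
    linarith
  have h8 : (0 : ℝ) < 8 / δ := by positivity
  have hMN : N₁ ≤ M := by
    have : (N₁ : ℝ) ≤ M := by linarith
    exact_mod_cast this
  have hM8 : 8 / δ ≤ M := by
    have : (0 : ℝ) ≤ N₁ := Nat.cast_nonneg _
    linarith
  have hδM : 8 ≤ δ * M := by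
    rw [div_le_iff₀ hδ] at hM8
    linarith
  set M₀ : ℕ := ⌈δ / 4 * M⌉₊ with hM0
  have hM0l : δ / 4 * M ≤ M₀ := Nat.le_ceil _
  have hM0u : (M₀ : ℝ) ≤ δ / 4 * M + 1 := (Nat.ceil_lt_add_one (by positivity)).le
  have hM01 : 1 ≤ M₀ := by
    have : (1 : ℝ) ≤ M₀ := by linarith
    exact_mod_cast this
  have hkpos : (0 : ℝ) ≤ k := Nat.cast_nonneg _
  have hT := transfer (d := d) (c := c) (k := k) (M₀ := M₀) (M₁ := M + 1) (R := R) (L := k / p) hd hM01
    (by
      have : (M : ℝ) + 1 ≤ k := by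
        have e1 : (k : ℝ) / (8 * d * p) ≤ k / 8 := by
          apply div_le_div_of_nonneg_left hkpos (by norm_num)
          nlinarith
        have e2 : (8 : ℝ) ≤ k := by
          have : (8 : ℝ) ≤ 8 * d * p := by nlinarith
          have e3 : (0 : ℝ) ≤ (8 * d * p) * (N₁ + 1 + 8 / δ + 8) := by positivity
          linarith
        linarith
      exact_mod_cast this)
    (by
      intro u hu
      have hur : (M₀ : ℝ) ≤ u := by exact_mod_cast hu
      have e1 : δ / 4 * (k / (16 * d * p)) ≤ u := by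
        have : (k : ℝ) / (16 * d * p) ≤ M := by
          have e2 : (k : ℝ) / (16 * d * p) = k / (8 * d * p) / 2 := by
            rw [div_div]; congr 1; ring
          have e3 : (2 : ℝ) ≤ k / (8 * d * p) := by linarith
          rw [e2]; linarith
        have := mul_le_mul_of_nonneg_left this (by positivity : (0 : ℝ) ≤ δ / 4)
        linarith
      have e2 : (k : ℝ) ≤ R * (d * u + c) := by
        have e3 : (64 * p * d / δ) * (δ / 4 * (k / (16 * d * p))) ≤ R * u :=
          mul_le_mul hRl e1 (by positivity) (by positivity)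
        have e4 : (64 * p * d / δ) * (δ / 4 * (k / (16 * d * p))) = k := by
          field_simp; ring
        have e5 : (R : ℝ) * u ≤ R * (d * u + c) := by
          apply mul_le_mul_of_nonneg_left _ (by positivity)
          have : (0 : ℝ) ≤ u := by positivity
          have : (0 : ℝ) ≤ c := by positivity
          nlinarith
        linarith
      exact_mod_cast e2)
    (by
      rw [Nat.le_div_iff_mul_le (by omega)]
      have : ((d : ℝ) * (M + 1) + c + d * R + 1) * p ≤ k := by
        have e1 : (d : ℝ) * M * p ≤ k / 8 := by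
          have : (M : ℝ) * (8 * d * p) ≤ k := by
            rw [le_div_iff₀ hdpr] at hMu; exact hMu
          linarith
        have e2 : 8 * p * (c + d * R + 2 + d) ≤ (k : ℝ) := by
          have e3 : (0 : ℝ) ≤ (8 * d * p) * (N₁ + 1 + 8 / δ + 8) := by positivity
          linarith
        have e4 : (p : ℝ) * (c + d * R + 2 + d) ≤ k / 8 := by linarith
        nlinarith
      exact_mod_cast this)
  -- the changes at the scale `M`
  have hlow : δ / 2 * M ≤ ((CH d c M₀ (M + 1)).card : ℝ) := by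
    have h1 := h M hMN
    have h2 : CH d c 1 (M + 1) ⊆ Ico 1 M₀ ∪ CH d c M₀ (M + 1) := by
      intro u hu
      unfold CH at hu ⊢
      rw [mem_filter, mem_Ico] at hu
      rw [mem_union, mem_filter, mem_Ico, mem_Ico]
      by_cases h3 : u < M₀
      · exact Or.inl ⟨hu.1.1, h3⟩
      · exact Or.inr ⟨⟨by omega, hu.1.2⟩, hu.2⟩
    have h3 : ((CH d c 1 (M + 1)).card : ℝ) ≤ (M₀ - 1 : ℕ) + (CH d c M₀ (M + 1)).card := by
      have := (card_le_card h2).trans (card_union_le _ _)
      rw [Nat.card_Ico] at this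
      exact_mod_cast this
    have h4 : ((M₀ - 1 : ℕ) : ℝ) ≤ δ / 4 * M := by
      rw [Nat.cast_sub hM01]; push_cast; linarith
    have h5 : δ * M ≤ δ₀ * M := mul_le_mul_of_nonneg_right (min_le_left _ _) (by positivity)
    have h6 : 0 ≤ δ * M := by positivity
    linarith
  have hTr : ((CH d c M₀ (M + 1)).card : ℝ) ≤ (R + 1) * ((CH d c k (k + k / p)).card : ℝ) := by
    exact_mod_cast hT
  have hR1 : (R : ℝ) + 1 ≤ 128 * p * d / δ := by
    have h1 : (2 : ℝ) ≤ 64 * p * d / δ := by
      rw [le_div_iff₀ hδ]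
      have : (1 : ℝ) ≤ p * d := by nlinarith
      nlinarith
    have h2 : (128 : ℝ) * p * d / δ = 64 * p * d / δ + 64 * p * d / δ := by ring
    linarith
  have hM16 : (k : ℝ) / (16 * d * p) ≤ M := by
    have e2 : (k : ℝ) / (16 * d * p) = k / (8 * d * p) / 2 := by
      rw [div_div]; congr 1; ring
    have e3 : (2 : ℝ) ≤ k / (8 * d * p) := by linarith
    rw [e2]; linarith
  have hchain : δ / 2 * (k / (16 * d * p)) ≤ (128 * p * d / δ) * ((CH d c k (k + k / p)).card : ℝ) := by
    calc δ / 2 * (k / (16 * d * p)) ≤ δ / 2 * M := mul_le_mul_of_nonneg_left hM16 (by positivity)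
      _ ≤ _ := hlow
      _ ≤ _ := hTr
      _ ≤ _ := mul_le_mul_of_nonneg_right hR1 (by positivity)
  have e : δ ^ 2 / (4096 * d ^ 2) * k / p ^ 2 = (δ / 2 * (k / (16 * d * p))) / (128 * p * d / δ) := by
    field_simp
    ring
  rw [e, div_le_iff₀ (by positivity), mul_comm ((#(CH d c k (k + k / p)) : ℕ) : ℝ)]
  exact hchain

end Pool.Agent.K7.H13.PL
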