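import Pool.Agent.K7.H13.PL.Good

set_option autoImplicit false

/-! From covered sign changes to integers with both parities (helper13). -/

namespace Pool.Agent.K7.H13.PL

open Finset Filter
open Pool.Agent.H376R2.MR (lam)

lemma lam_odd (n : ℕ) : lam n = -1 ↔ Odd (ArithmeticFunction.cardFactors n) := by
  unfold lam
  rw [neg_one_pow_eq_neg_one_iff_odd (by norm_num)]

lemma lam_even (n : ℕ) : lam n = 1 ↔ Even (ArithmeticFunction.cardFactors n) := by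
  unfold lam
  rw [neg_one_pow_eq_one_iff_even (by norm_num)]

/-- from a lower bound for the number of factorisations to a lower bound for the number of integers -/
theorem many_of_card {c₂ : ℝ} (hc : 0 < c₂) (A : ℝ) (hA : 1 ≤ A) {δ : ℝ} (hδ : 0 < δ) :
    ∃ k₀ : ℕ, ∀ k : ℕ, k₀ ≤ k → ∀ (G T : Finset ℕ) (b : ℕ → ℕ), Function.Injective b →
      c₂ * k ≤ (G.card : ℝ) → (∀ u ∈ G, ∃ n ∈ T, b u ∣ n ∨ b (u + 1) ∣ n) → (∀ n ∈ T, n ≠ 0) →
      (∀ n ∈ T, (n : ℝ) ≤ A * k ^ 2) → (k : ℝ) ^ (1 - δ) ≤ (T.card : ℝ) := by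
  obtain ⟨C, hC, hdiv⟩ := Pool.Agent.H510R2.divisor_bound (δ / 4) (by positivity)
  have hlim : Tendsto (fun k : ℕ => (k : ℝ) ^ (δ / 2)) atTop atTop :=
    (tendsto_rpow_atTop (by positivity)).comp tendsto_natCast_atTop_atTop
  obtain ⟨k₁, hk₁⟩ := eventually_atTop.1 (hlim.eventually_ge_atTop (2 * C * A ^ (δ / 4) / c₂))
  refine ⟨max k₁ 1, fun k hk G T b hb hG h1 hT0 hT => ?_⟩
  have hk1 : 1 ≤ k := (le_max_right _ _).trans hk
  have hkr : (1 : ℝ) ≤ k := by exact_mod_cast hk1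
  have hk0 : (0 : ℝ) < k := by linarith
  set D : ℕ := ⌊C * (A * (k : ℝ) ^ 2) ^ (δ / 4)⌋₊ with hD
  have hDr : (D : ℝ) ≤ C * (A * (k : ℝ) ^ 2) ^ (δ / 4) := Nat.floor_le (by positivity)
  have h2 := fiber_count G T D b hb h1 hT0 (by
    intro n hn
    apply Nat.le_floor
    refine (hdiv n (Nat.one_le_iff_ne_zero.2 (hT0 n hn))).trans ?_
    apply mul_le_mul_of_nonneg_left _ hC.le
    exact Real.rpow_le_rpow (Nat.cast_nonneg _) (hT n hn) (by positivity))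
  have h3 : (G.card : ℝ) ≤ T.card * (2 * D) := by exact_mod_cast h2
  have h4 : (A * (k : ℝ) ^ 2) ^ (δ / 4) = A ^ (δ / 4) * (k : ℝ) ^ (δ / 2) := by
    rw [Real.mul_rpow (by linarith) (by positivity), ← Real.rpow_natCast, ← Real.rpow_mul hk0.le]
    congr 2
    push_cast
    ring
  have h5 : c₂ * k ≤ T.card * (2 * (C * (A ^ (δ / 4) * (k : ℝ) ^ (δ / 2)))) := by
    rw [← h4]
    refine (hG.trans h3).trans ?_
    apply mul_le_mul_of_nonneg_left _ (Nat.cast_nonneg _)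
    linarith
  have h6 := hk₁ k ((le_max_left _ _).trans hk)
  have h6' : 2 * C * A ^ (δ / 4) ≤ c₂ * (k : ℝ) ^ (δ / 2) := by
    rw [div_le_iff₀ hc] at h6
    linarith
  have hkd : (0 : ℝ) < (k : ℝ) ^ (δ / 2) := Real.rpow_pos_of_pos hk0 _
  have h7 : (k : ℝ) ^ (1 - δ) * ((k : ℝ) ^ (δ / 2) * (k : ℝ) ^ (δ / 2)) = k := by
    rw [← Real.rpow_add hk0, ← Real.rpow_add hk0]
    have : 1 - δ + (δ / 2 + δ / 2) = 1 := by ring
    rw [this, Real.rpow_one]
  have h8 : (T.card : ℝ) * (2 * (C * (A ^ (δ / 4) * (k : ℝ) ^ (δ / 2)))) ≤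
      T.card * (c₂ * (k : ℝ) ^ (δ / 2) * (k : ℝ) ^ (δ / 2)) := by
    apply mul_le_mul_of_nonneg_left _ (Nat.cast_nonneg _)
    calc 2 * (C * (A ^ (δ / 4) * (k : ℝ) ^ (δ / 2))) = (2 * C * A ^ (δ / 4)) * (k : ℝ) ^ (δ / 2) := by ring
      _ ≤ _ := mul_le_mul_of_nonneg_right h6' hkd.le
  have h9 : ((k : ℝ) ^ (1 - δ)) * (c₂ * (k : ℝ) ^ (δ / 2) * (k : ℝ) ^ (δ / 2)) ≤
      T.card * (c₂ * (k : ℝ) ^ (δ / 2) * (k : ℝ) ^ (δ / 2)) := by
    calc ((k : ℝ) ^ (1 - δ)) * (c₂ * (k : ℝ) ^ (δ / 2) * (k : ℝ) ^ (δ / 2)) =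
        c₂ * ((k : ℝ) ^ (1 - δ) * ((k : ℝ) ^ (δ / 2) * (k : ℝ) ^ (δ / 2))) := by ring
      _ = c₂ * k := by rw [h7]
      _ ≤ _ := h5.trans h8
  exact le_of_mul_le_mul_right h9 (by positivity)

/-- odd integers between consecutive odd squares with a given sign -/
theorem odd_main (s : ℤ) (hs : s = 1 ∨ s = -1) (δ : ℝ) (hδ : 0 < δ) : ∃ k₀ : ℕ, ∀ k : ℕ, k₀ ≤ k →
    (k : ℝ) ^ (1 - δ) ≤
      (((Ioo ((2 * k - 1) ^ 2) ((2 * k + 1) ^ 2)).filter (fun n => Odd n ∧ lam n = s)).card : ℝ) := by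
  classical
  obtain ⟨c₂, p, k₀, hc₂, hp, h⟩ := good_many 2 1 (by norm_num)
  obtain ⟨k₁, hk₁⟩ := many_of_card hc₂ 9 (by norm_num) hδ
  refine ⟨max (max k₀ k₁) 1, fun k hk => ?_⟩
  have hkk0 : k₀ ≤ k := (le_max_left _ _).trans ((le_max_left _ _).trans hk)
  have hkk1 : k₁ ≤ k := (le_max_right _ _).trans ((le_max_left _ _).trans hk)
  have hk1 : 1 ≤ k := (le_max_right _ _).trans hk
  refine hk₁ k hkk1 (GG 2 1 p k (2 * k)) _ (fun u => 2 * u + 1) (fun a b hab => by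
    simp only at hab; omega) (h k (2 * k) hkk0 (by omega) le_rfl) ?_ ?_ ?_
  · intro u hu
    unfold GG CH at hu
    rw [mem_filter, mem_filter, mem_Ico] at hu
    obtain ⟨⟨⟨hu1, hu2⟩, hu3⟩, hu4⟩ := hu
    have hkp : k / p ≤ k := Nat.div_le_self _ _
    obtain ⟨m, hm, hm1, hm2⟩ := cov_odd hu1 (by omega) hu4
    have hm0 : m ≠ 0 := by
      rintro rfl
      simp at hm
    have hne : lam (m * (2 * u + 1)) ≠ lam (m * (2 * (u + 1) + 1)) := by
      rw [lam_mul' hm0 (by omega), lam_mul' hm0 (by omega)]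
      intro he
      apply hu3
      have : lam m ≠ 0 := by
        rcases lam_pm m with h | h <;> rw [h] <;> norm_num
      exact mul_left_cancel₀ this he
    have hlt : m * (2 * u + 1) < m * (2 * (u + 1) + 1) :=
      Nat.mul_lt_mul_of_pos_left (by omega) (Nat.pos_of_ne_zero hm0)
    have hodd1 : Odd (m * (2 * u + 1)) := hm.mul ⟨u, rfl⟩
    have hodd2 : Odd (m * (2 * (u + 1) + 1)) := hm.mul ⟨u + 1, rfl⟩
    by_cases h1 : lam (m * (2 * u + 1)) = s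
    · refine ⟨m * (2 * u + 1), ?_, Or.inl (dvd_mul_left _ _)⟩
      rw [mem_filter, mem_Ioo]
      exact ⟨⟨hm1, hlt.trans hm2⟩, hodd1, h1⟩
    · refine ⟨m * (2 * (u + 1) + 1), ?_, Or.inr (dvd_mul_left _ _)⟩
      rw [mem_filter, mem_Ioo]
      refine ⟨⟨hm1.trans hlt, hm2⟩, hodd2, ?_⟩
      rcases lam_pm (m * (2 * u + 1)) with h2 | h2 <;>
        rcases lam_pm (m * (2 * (u + 1) + 1)) with h3 | h3 <;> rcases hs with rfl | rfl <;> simp_all
  · intro n hn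
    rw [mem_filter, mem_Ioo] at hn
    omega
  · intro n hn
    rw [mem_filter, mem_Ioo] at hn
    have h1 : n ≤ 9 * k ^ 2 := by
      have : (2 * k + 1) ^ 2 ≤ 9 * k ^ 2 := by nlinarith
      omega
    exact_mod_cast h1

/-- integers between consecutive squares with a given sign -/
theorem all_main (s : ℤ) (hs : s = 1 ∨ s = -1) (δ : ℝ) (hδ : 0 < δ) : ∃ N₀ : ℕ, ∀ N : ℕ, N₀ ≤ N →
    (N : ℝ) ^ (1 - δ) ≤ (((Ioo (N ^ 2) ((N + 1) ^ 2)).filter (fun n => lam n = s)).card : ℝ) := by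
  classical
  obtain ⟨c₂, p, k₀, hc₂, hp, h⟩ := good_many 1 0 (by norm_num)
  obtain ⟨k₁, hk₁⟩ := many_of_card hc₂ 4 (by norm_num) hδ
  refine ⟨max (max k₀ k₁) 1, fun N hk => ?_⟩
  have hkk0 : k₀ ≤ N := (le_max_left _ _).trans ((le_max_left _ _).trans hk)
  have hkk1 : k₁ ≤ N := (le_max_right _ _).trans ((le_max_left _ _).trans hk)
  have hk1 : 1 ≤ N := (le_max_right _ _).trans hk
  have hc : c₂ * N ≤ ((GG 1 0 p (N + 1) (2 * N + 1)).card : ℝ) := by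
    refine le_trans ?_ (h (N + 1) (2 * N + 1) (by omega) (by omega) (by omega))
    push_cast
    nlinarith
  refine hk₁ N hkk1 (GG 1 0 p (N + 1) (2 * N + 1)) _ (fun u => u) (fun a b hab => hab) hc ?_ ?_ ?_
  · intro u hu
    unfold GG CH at hu
    rw [mem_filter, mem_filter, mem_Ico] at hu
    obtain ⟨⟨⟨hu1, hu2⟩, hu3⟩, hu4⟩ := hu
    have hkp : (N + 1) / p ≤ N + 1 := Nat.div_le_self _ _
    obtain ⟨m, hm1, hm2⟩ := cov_all hu1 (by omega) hu4
    have hm0 : m ≠ 0 := by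
      rintro rfl
      simp at hm1
    unfold yy at hu3
    simp only [one_mul, add_zero] at hu3
    have hne : lam (m * u) ≠ lam (m * (u + 1)) := by
      rw [lam_mul' hm0 (by omega), lam_mul' hm0 (by omega)]
      intro he
      apply hu3
      have : lam m ≠ 0 := by
        rcases lam_pm m with h | h <;> rw [h] <;> norm_num
      exact mul_left_cancel₀ this he
    have hlt : m * u < m * (u + 1) :=
      Nat.mul_lt_mul_of_pos_left (by omega) (Nat.pos_of_ne_zero hm0)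
    by_cases h1 : lam (m * u) = s
    · refine ⟨m * u, ?_, Or.inl (dvd_mul_left _ _)⟩
      rw [mem_filter, mem_Ioo]
      exact ⟨⟨hm1, hlt.trans hm2⟩, h1⟩
    · refine ⟨m * (u + 1), ?_, Or.inr (dvd_mul_left _ _)⟩
      rw [mem_filter, mem_Ioo]
      refine ⟨⟨hm1.trans hlt, hm2⟩, ?_⟩
      rcases lam_pm (m * u) with h2 | h2 <;>
        rcases lam_pm (m * (u + 1)) with h3 | h3 <;> rcases hs with rfl | rfl <;> simp_all
  · intro n hn
    rw [mem_filter, mem_Ioo] at hn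
    omega
  · intro n hn
    rw [mem_filter, mem_Ioo] at hn
    have h1 : n ≤ 4 * N ^ 2 := by
      have : (N + 1) ^ 2 ≤ 4 * N ^ 2 := by nlinarith
      omega
    exact_mod_cast h1

end Pool.Agent.K7.H13.PL
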