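import Pool.Agent.K7.H13.PL.UncC
import Pool.Agent.K7.H13.PL.Dil
import Pool.Agent.H510R2.Div

set_option autoImplicit false

/-! Many covered sign changes (helper13). -/

namespace Pool.Agent.K7.H13.PL

open Finset
open Pool.Agent.H376R2.MR (lam)

open Classical in
/-- covered sign changes -/
noncomputable def GG (d c p k K : ℕ) : Finset ℕ :=
  (CH d c k (k + k / p)).filter (fun u => Cov K (u + 1 - k))

theorem good_many (d c : ℕ) (hd : 1 ≤ d) : ∃ (c₂ : ℝ) (p k₀ : ℕ), 0 < c₂ ∧ 27 ≤ p ∧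
    ∀ k K : ℕ, k₀ ≤ k → k ≤ K → K ≤ 2 * k → c₂ * k ≤ ((GG d c p k K).card : ℝ) := by
  classical
  obtain ⟨c₁, hc₁, h⟩ := changes_local d c hd
  set J : ℕ := ⌈3848 / c₁⌉₊ + 3 with hJ
  have hJ3 : 3 ≤ J := by omega
  have hJr : (3848 : ℝ) / c₁ ≤ J := by
    rw [hJ]; push_cast
    linarith [Nat.le_ceil (3848 / c₁)]
  have hJ0 : (0 : ℝ) < J := by
    have : (3 : ℝ) ≤ J := by exact_mod_cast hJ3
    linarith
  obtain ⟨k₁, hk₁⟩ := h (J ^ 3) (Nat.one_le_pow _ _ (by omega))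
  refine ⟨c₁ / (2 * J ^ 6), J ^ 3, max k₁ ⌈(5 * (J : ℝ) ^ 5 + 1) * (4 * J ^ 6) / c₁⌉₊, by positivity, ?_, ?_⟩
  · have : 3 ^ 3 ≤ J ^ 3 := Nat.pow_le_pow_left hJ3 3
    omega
  intro k K hk hkK hK2
  have h1 := hk₁ k ((le_max_left _ _).trans hk)
  have h2 : (5 * (J : ℝ) ^ 5 + 1) * (4 * J ^ 6) / c₁ ≤ k :=
    (Nat.le_ceil _).trans (by exact_mod_cast (le_max_right _ _).trans hk)
  have h3 := unc_card J K (k / J ^ 3) hJ3 (by
    exact (Nat.mul_div_le k (J ^ 3)).trans hkK)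
  -- the changes which are not covered
  have h4 : (CH d c k (k + k / J ^ 3)).card ≤ (GG d c (J ^ 3) k K).card + (UU K (k / J ^ 3)).card := by
    have h5 : CH d c k (k + k / J ^ 3) ⊆ GG d c (J ^ 3) k K ∪ (UU K (k / J ^ 3)).image (fun τ => τ + k - 1) := by
      intro u hu
      rw [mem_union]
      by_cases hcov : Cov K (u + 1 - k)
      · left
        unfold GG
        rw [mem_filter]
        exact ⟨hu, hcov⟩
      · right
        rw [mem_image]
        unfold CH at hu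
        rw [mem_filter, mem_Ico] at hu
        refine ⟨u + 1 - k, ?_, by omega⟩
        unfold UU
        rw [mem_filter, mem_Icc]
        exact ⟨⟨by omega, by omega⟩, hcov⟩
    exact (card_le_card h5).trans ((card_union_le _ _).trans (Nat.add_le_add_left card_image_le _))
  have h4' : ((CH d c k (k + k / J ^ 3)).card : ℝ) ≤ (GG d c (J ^ 3) k K).card + (UU K (k / J ^ 3)).card := by
    exact_mod_cast h4
  have hk0 : (0 : ℝ) ≤ k := Nat.cast_nonneg _
  have hKr : (K : ℝ) ≤ 2 * k := by exact_mod_cast hK2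
  have h6 : (481 : ℝ) * K / J ^ 7 ≤ c₁ * k / (4 * J ^ 6) := by
    rw [div_le_div_iff₀ (by positivity) (by positivity)]
    have h7 : (3848 : ℝ) ≤ c₁ * J := by
      rw [div_le_iff₀ hc₁] at hJr
      linarith
    have e1 : (481 : ℝ) * (K : ℝ) * (4 * (J : ℝ) ^ 6) ≤ 481 * (2 * (k : ℝ)) * (4 * (J : ℝ) ^ 6) := by
      apply mul_le_mul_of_nonneg_right _ (by positivity)
      linarith
    have e2 : (3848 : ℝ) * ((k : ℝ) * (J : ℝ) ^ 6) ≤ (c₁ * J) * ((k : ℝ) * (J : ℝ) ^ 6) :=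
      mul_le_mul_of_nonneg_right h7 (by positivity)
    linarith
  have h8 : 5 * (J : ℝ) ^ 5 + 1 ≤ c₁ * k / (4 * J ^ 6) := by
    rw [le_div_iff₀ (by positivity)]
    rw [div_le_iff₀ hc₁] at h2
    linarith
  have h9 : c₁ * k / ((J ^ 3 : ℕ) : ℝ) ^ 2 = c₁ / (2 * J ^ 6) * k + c₁ * k / (4 * J ^ 6) + c₁ * k / (4 * J ^ 6) := by
    push_cast
    field_simp
    ring
  linarith

/-- counting through divisors -/
lemma fiber_count (G T : Finset ℕ) (D : ℕ) (b : ℕ → ℕ) (hb : Function.Injective b)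
    (h : ∀ u ∈ G, ∃ n ∈ T, b u ∣ n ∨ b (u + 1) ∣ n) (hT : ∀ n ∈ T, n ≠ 0)
    (hD : ∀ n ∈ T, n.divisors.card ≤ D) : G.card ≤ T.card * (2 * D) := by
  classical
  have hsub : G ⊆ T.biUnion (fun n => G.filter (fun u => b u ∣ n) ∪ G.filter (fun u => b (u + 1) ∣ n)) := by
    intro u hu
    obtain ⟨n, hn, h1⟩ := h u hu
    rw [mem_biUnion]
    refine ⟨n, hn, ?_⟩
    rw [mem_union, mem_filter, mem_filter]
    rcases h1 with h1 | h1
    · exact Or.inl ⟨hu, h1⟩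
    · exact Or.inr ⟨hu, h1⟩
  have hc : ∀ n ∈ T, (G.filter (fun u => b u ∣ n) ∪ G.filter (fun u => b (u + 1) ∣ n)).card ≤ 2 * D := by
    intro n hn
    have h1 : (G.filter (fun u => b u ∣ n)).card ≤ n.divisors.card :=
      Finset.card_le_card_of_injOn b (fun u hu => by
        rw [mem_coe, mem_filter] at hu
        exact Nat.mem_divisors.2 ⟨hu.2, hT n hn⟩) (fun _ _ _ _ h => hb h)
    have h2 : (G.filter (fun u => b (u + 1) ∣ n)).card ≤ n.divisors.card :=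
      Finset.card_le_card_of_injOn (fun u => b (u + 1)) (fun u hu => by
        rw [mem_coe, mem_filter] at hu
        exact Nat.mem_divisors.2 ⟨hu.2, hT n hn⟩) (fun _ _ _ _ h => by
          have := hb h
          omega)
    have := card_union_le (G.filter (fun u => b u ∣ n)) (G.filter (fun u => b (u + 1) ∣ n))
    have := hD n hn
    omega
  exact (card_le_card hsub).trans (card_biUnion_le.trans (sum_le_card_nsmul _ _ _ hc))

/-- the covered pair `2u+1, 2u+3` -/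
lemma cov_odd {k u : ℕ} (hk : k ≤ u) (hu : u + 1 - k ≤ k) (h : Cov (2 * k) (u + 1 - k)) :
    ∃ m : ℕ, Odd m ∧ (2 * k - 1) ^ 2 < m * (2 * u + 1) ∧ m * (2 * (u + 1) + 1) < (2 * k + 1) ^ 2 := by
  obtain ⟨j, h1, h2⟩ := h
  obtain ⟨a, rfl⟩ := Nat.exists_eq_add_of_le hk
  have e0 : k + a + 1 - k = a + 1 := by omega
  rw [e0] at h1 h2 hu
  refine ⟨2 * (k - (a + 1) + j) + 1, ⟨_, rfl⟩, ?_, ?_⟩
  · have hk1 : 1 ≤ k := by omega
    obtain ⟨b, hb⟩ := Nat.exists_eq_add_of_le hu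
    have e1 : k - (a + 1) + j = b + j := by omega
    rw [e1]
    have e2 : 2 * k - 1 = 2 * (a + b) + 1 := by omega
    rw [e2]
    rw [hb] at h1 h2 ⊢
    nlinarith
  · obtain ⟨b, hb⟩ := Nat.exists_eq_add_of_le hu
    have e1 : k - (a + 1) + j = b + j := by omega
    rw [e1]
    rw [hb] at h1 h2 ⊢
    nlinarith

/-- the covered pair `u, u + 1` -/
lemma cov_all {N u : ℕ} (hN : N + 1 ≤ u) (hu : u - N ≤ N + 1) (h : Cov (2 * N + 1) (u + 1 - (N + 1))) :
    ∃ m : ℕ, N ^ 2 < m * u ∧ m * (u + 1) < (N + 1) ^ 2 := by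
  obtain ⟨j, h1, h2⟩ := h
  obtain ⟨a, rfl⟩ := Nat.exists_eq_add_of_le hN
  have e0 : N + 1 + a + 1 - (N + 1) = a + 1 := by omega
  rw [e0] at h1 h2
  have hu' : a ≤ N := by omega
  obtain ⟨b, rfl⟩ := Nat.exists_eq_add_of_le hu'
  refine ⟨b + j, ?_, ?_⟩
  · nlinarith
  · nlinarith

end Pool.Agent.K7.H13.PL
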