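import Mathlib

set_option autoImplicit false

/-!
Factorisations near the diagonal of the numbers between two squares (helper13).

`Cov K τ`: two neighbouring numbers `b, b'` at the distance `τ` from the centre have a common
cofactor `m` such that `m b` and `m b'` are both in the interval. We show that few `τ` are not
covered.
-/

namespace Pool.Agent.K7.H13.PL

open Finset

/-- covered positions -/
def Cov (K τ : ℕ) : Prop :=
  ∃ j : ℕ, j * (K + 2 * τ) + j < 2 * τ ^ 2 ∧ 2 * τ ^ 2 + (j + 1) < (j + 1) * (K + 2 * τ)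

/-- the obstruction -/
def Sol (K τ i : ℕ) : Prop :=
  1 ≤ i ∧ i * (K + 2 * τ) ≤ 2 * τ ^ 2 + i ∧ 2 * τ ^ 2 ≤ i * (K + 2 * τ) + i

lemma sol_of_not_cov {K τ : ℕ} (hτ : 1 ≤ τ) (h : ¬ Cov K τ) : ∃ i, Sol K τ i := by
  set j := (2 * τ ^ 2 - 1) / (K + 2 * τ + 1) with hj
  have h1 : j * (K + 2 * τ + 1) ≤ 2 * τ ^ 2 - 1 := Nat.div_mul_le_self _ _
  have h2 : 2 * τ ^ 2 - 1 < (j + 1) * (K + 2 * τ + 1) := by
    have := Nat.lt_mul_div_succ (2 * τ ^ 2 - 1) (show 0 < K + 2 * τ + 1 by omega)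
    rw [← hj] at this
    linarith [this, mul_comm (K + 2 * τ + 1) (j + 1)]
  clear_value j
  have h3 : 1 ≤ τ ^ 2 := Nat.one_le_pow _ _ hτ
  have h4 : j * (K + 2 * τ) + j < 2 * τ ^ 2 := by
    have : j * (K + 2 * τ) + j = j * (K + 2 * τ + 1) := by ring
    omega
  have h5 : ¬ (2 * τ ^ 2 + (j + 1) < (j + 1) * (K + 2 * τ)) := fun h6 => h ⟨j, h4, h6⟩
  refine ⟨j + 1, by omega, by omega, ?_⟩
  have : (j + 1) * (K + 2 * τ + 1) = (j + 1) * (K + 2 * τ) + (j + 1) := by ring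
  omega

lemma sol_small {K τ i p : ℕ} (hτ : 1 ≤ τ) (hp : p * τ ≤ K) (h : Sol K τ i) : i * p ≤ 2 * τ := by
  obtain ⟨h1, h2, -⟩ := h
  have h3 : i * K ≤ 2 * τ ^ 2 := by
    have e1 : i * (K + 2 * τ) = i * K + i * (2 * τ) := by ring
    have e2 : i * 1 ≤ i * (2 * τ) := Nat.mul_le_mul_left _ (by omega)
    omega
  have h4 : i * (p * τ) ≤ 2 * τ ^ 2 := (Nat.mul_le_mul_left _ hp).trans h3
  have h5 : (i * p) * τ ≤ (2 * τ) * τ := by
    calc (i * p) * τ = i * (p * τ) := by ring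
      _ ≤ 2 * τ ^ 2 := h4
      _ = (2 * τ) * τ := by ring
  exact Nat.le_of_mul_le_mul_right h5 hτ

lemma sol_step {K p τ τ' i i' : ℕ} (hp : 10 ≤ p) (hτ : 1 ≤ τ) (hlt : τ < τ') (hK : p * τ' ≤ K)
    (h : Sol K τ i) (h' : Sol K τ' i') : i < i' ∧ p ≤ 4 * (τ' - τ) ∧ (i' - i) * p ≤ 5 * (τ' - τ) := by
  have s1 := sol_small hτ ((Nat.mul_le_mul_left p hlt.le).trans hK) h
  have s2 := sol_small (hτ.trans hlt.le) hK h'
  obtain ⟨h1, h2, h3⟩ := h
  obtain ⟨h1', h2', h3'⟩ := h'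
  have t1 : 5 * i ≤ τ := by
    have := Nat.mul_le_mul_left i hp
    omega
  have t2 : 5 * i' ≤ τ' := by
    have := Nat.mul_le_mul_left i' hp
    omega
  obtain ⟨a, rfl⟩ := Nat.exists_eq_add_of_lt hlt
  have ha : τ + a + 1 - τ = a + 1 := by omega
  rw [ha]
  zify at *
  have hlt2 : (i : ℤ) < i' := by
    by_contra hcon
    push Not at hcon
    have e1 : ((i' : ℤ) - i) * (K + 2 * (τ + a + 1)) ≤ 0 := by
      apply mul_nonpos_of_nonpos_of_nonneg <;> [linarith; positivity]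
    have e2 : (0 : ℤ) ≤ a * (τ + (τ + a + 1) - i) := by
      apply mul_nonneg (by positivity)
      linarith
    linarith
  have e3 : ((i' : ℤ) - i) * (K + 2 * (τ + a + 1)) ≤ 4 * (a + 1) * (τ + a + 1) + (τ + a + 1) := by
    have e4 : (0 : ℤ) ≤ (a + 1) * i := by positivity
    have e5 : (0 : ℤ) ≤ (a + 1) * (a + 1) := by positivity
    linarith
  have hK' : (p : ℤ) * (τ + a + 1) ≤ K := by linarith
  have hτ' : (0 : ℤ) < τ + a + 1 := by positivity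
  refine ⟨hlt2, ?_, ?_⟩
  · have e5 : (K : ℤ) + 2 * (τ + a + 1) ≤ ((i' : ℤ) - i) * (K + 2 * (τ + a + 1)) := by
      have : (0 : ℤ) ≤ ((i' : ℤ) - i - 1) * (K + 2 * (τ + a + 1)) := by
        apply mul_nonneg (by linarith) (by positivity)
      linarith
    have e6 : (p : ℤ) * (τ + a + 1) ≤ (4 * (a + 1)) * (τ + a + 1) := by linarith
    exact le_of_mul_le_mul_right e6 hτ'
  · have e7 : ((i' : ℤ) - i) * K ≤ 5 * (a + 1) * (τ + a + 1) := by
      have f1 : (0 : ℤ) ≤ ((i' : ℤ) - i) * (2 * (τ + a + 1)) := mul_nonneg (by linarith) (by positivity)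
      have f2 : (0 : ℤ) ≤ a * (τ + a + 1) := by positivity
      linarith
    have e8 : (((i' : ℤ) - i) * p) * (τ + a + 1) ≤ (5 * (a + 1)) * (τ + a + 1) := by
      have : ((i' : ℤ) - i) * (p * (τ + a + 1)) ≤ ((i' : ℤ) - i) * K :=
        mul_le_mul_of_nonneg_left hK' (by linarith)
      linarith
    have e9 := le_of_mul_le_mul_right e8 hτ'
    have e10 : ((i' - i : ℕ) : ℤ) = (i' : ℤ) - i := by
      rw [Nat.cast_sub]
      exact_mod_cast hlt2.le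
    rw [e10]
    exact e9

lemma sol_pair {K p a e τ₁ τ₂ i₁ i₂ : ℕ} (hp : 10 ≤ p) (hτ : 1 ≤ τ₁) (ha : 1 ≤ a) (hlt : τ₁ < τ₂)
    (hK : p * (τ₂ + a) ≤ K) (h1 : Sol K τ₁ i₁) (h1' : Sol K (τ₁ + a) (i₁ + e))
    (h2 : Sol K τ₂ i₂) (h2' : Sol K (τ₂ + a) (i₂ + e)) : a * (τ₂ - τ₁) * p ^ 2 ≤ 6 * K := by
  have hK1 : p * (τ₁ + a) ≤ K := (Nat.mul_le_mul_left p (by omega)).trans hK
  have hK2 : p * τ₂ ≤ K := (Nat.mul_le_mul_left p (by omega)).trans hK
  have hK0 : p * τ₁ ≤ K := (Nat.mul_le_mul_left p (by omega)).trans hK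
  obtain ⟨-, -, he⟩ := sol_step hp hτ (by omega : τ₁ < τ₁ + a) hK1 h1 h1'
  have he' : e * p ≤ 5 * a := by
    have e1 : i₁ + e - i₁ = e := by omega
    have e2 : τ₁ + a - τ₁ = a := by omega
    rw [e1, e2] at he
    exact he
  have s1 := sol_small hτ hK0 h1
  have s1' := sol_small (by omega : 1 ≤ τ₁ + a) hK1 h1'
  have s2 := sol_small (by omega : 1 ≤ τ₂) hK2 h2
  have s2' := sol_small (by omega : 1 ≤ τ₂ + a) hK h2'
  have hb : 2 * e ≤ a := by
    have := Nat.mul_le_mul_left e hp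
    omega
  obtain ⟨d, rfl⟩ := Nat.exists_eq_add_of_lt hlt
  have hd : τ₁ + d + 1 - τ₁ = d + 1 := by omega
  rw [hd]
  obtain ⟨-, u1, u2⟩ := h1
  obtain ⟨-, u3, u4⟩ := h1'
  obtain ⟨-, u5, u6⟩ := h2
  obtain ⟨-, u7, u8⟩ := h2'
  zify at *
  -- the remainders
  set r₁ : ℤ := 2 * (τ₁ : ℤ) ^ 2 - i₁ * (K + 2 * τ₁) with hr1
  set r₁' : ℤ := 2 * ((τ₁ : ℤ) + a) ^ 2 - (i₁ + e) * (K + 2 * (τ₁ + a)) with hr1'
  set r₂ : ℤ := 2 * ((τ₁ : ℤ) + d + 1) ^ 2 - i₂ * (K + 2 * (τ₁ + d + 1)) with hr2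
  set r₂' : ℤ := 2 * ((τ₁ : ℤ) + d + 1 + a) ^ 2 - (i₂ + e) * (K + 2 * (τ₁ + d + 1 + a)) with hr2'
  set V₁ : ℤ := K + 2 * τ₁ with hV1
  set V₂ : ℤ := K + 2 * (τ₁ + d + 1) with hV2
  have hpp : (0 : ℤ) < p := by linarith
  have id1 : ((a : ℤ) - e) * (V₁ * (V₁ + 2 * a)) = a * K ^ 2 - 2 * a * r₁ + (r₁' - r₁) * V₁ := by
    rw [hr1, hr1', hV1]; ring
  have id2 : ((a : ℤ) - e) * (V₂ * (V₂ + 2 * a)) = a * K ^ 2 - 2 * a * r₂ + (r₂' - r₂) * V₂ := by
    rw [hr2, hr2', hV2]; ring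
  -- bounds for the remainders
  have b1 : |r₁| ≤ i₁ := by rw [abs_le]; constructor <;> linarith
  have b1' : |r₁'| ≤ i₁ + e := by rw [abs_le]; constructor <;> linarith
  have b2 : |r₂| ≤ i₂ := by rw [abs_le]; constructor <;> linarith
  have b2' : |r₂'| ≤ i₂ + e := by rw [abs_le]; constructor <;> linarith
  have key : ∀ i t : ℤ, i * p ≤ 2 * t → p * t ≤ K → i * p ^ 2 ≤ 2 * K := by
    intro i t h1 h2
    have h3 : (i * p) * p ≤ (2 * t) * p := mul_le_mul_of_nonneg_right h1 hpp.le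
    linarith
  have c1 : |r₁| * p ^ 2 ≤ 2 * K := (mul_le_mul_of_nonneg_right b1 (by positivity)).trans (key _ _ s1 hK0)
  have c1' : |r₁'| * p ^ 2 ≤ 2 * K := (mul_le_mul_of_nonneg_right b1' (by positivity)).trans (key _ _ s1' hK1)
  have c2 : |r₂| * p ^ 2 ≤ 2 * K := (mul_le_mul_of_nonneg_right b2 (by positivity)).trans (key _ _ s2 hK2)
  have c2' : |r₂'| * p ^ 2 ≤ 2 * K := (mul_le_mul_of_nonneg_right b2' (by positivity)).trans (key _ _ s2' hK)
  have g1 : (10 : ℤ) * (τ₁ + d + 1 + a) ≤ p * (τ₁ + d + 1 + a) :=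
    mul_le_mul_of_nonneg_right hp (by positivity)
  have hd0 : (0 : ℤ) ≤ d := Int.natCast_nonneg d
  have ha0 : (0 : ℤ) ≤ a := Int.natCast_nonneg a
  have ht0 : (0 : ℤ) ≤ τ₁ := Int.natCast_nonneg τ₁
  have hV1K : 10 * V₁ ≤ 12 * K := by rw [hV1]; linarith
  have hV2K : 10 * V₂ ≤ 12 * K := by rw [hV2]; linarith
  have haK : 10 * (a : ℤ) ≤ K := by linarith
  have hK0' : (0 : ℤ) < K := by linarith
  have hV1p : (0 : ℤ) < V₁ := by rw [hV1]; positivity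
  have hV2p : (0 : ℤ) < V₂ := by rw [hV2]; positivity
  -- the difference
  have diff : ((a : ℤ) - e) * (2 * (d + 1)) * (V₁ + V₂ + 2 * a) * p ^ 2 ≤
      8 * a * K + 4 * K * (V₁ + V₂) := by
    have e1 : ((a : ℤ) - e) * (2 * (d + 1)) * (V₁ + V₂ + 2 * a) =
        - 2 * a * (r₂ - r₁) + (r₂' - r₂) * V₂ - (r₁' - r₁) * V₁ := by
      have : ((a : ℤ) - e) * (2 * (d + 1)) * (V₁ + V₂ + 2 * a) =
          ((a : ℤ) - e) * (V₂ * (V₂ + 2 * a)) - ((a : ℤ) - e) * (V₁ * (V₁ + 2 * a)) := by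
        rw [hV1, hV2]; ring
      rw [this, id1, id2]; ring
    rw [e1]
    have q1 : r₁ * p ^ 2 ≤ 2 * K := (mul_le_mul_of_nonneg_right (le_abs_self _) (by positivity)).trans c1
    have q1n : - (r₁ * p ^ 2) ≤ 2 * K := by
      have := (mul_le_mul_of_nonneg_right (neg_abs_le r₁) (by positivity : (0 : ℤ) ≤ p ^ 2))
      linarith
    have q1' : - (r₁' * p ^ 2) ≤ 2 * K := by
      have := (mul_le_mul_of_nonneg_right (neg_abs_le r₁') (by positivity : (0 : ℤ) ≤ p ^ 2))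
      linarith
    have q2n : - (r₂ * p ^ 2) ≤ 2 * K := by
      have := (mul_le_mul_of_nonneg_right (neg_abs_le r₂) (by positivity : (0 : ℤ) ≤ p ^ 2))
      linarith
    have q2' : r₂' * p ^ 2 ≤ 2 * K := (mul_le_mul_of_nonneg_right (le_abs_self _) (by positivity)).trans c2'
    have w1 : (- 2 * (a : ℤ) * (r₂ - r₁)) * p ^ 2 ≤ 8 * a * K := by
      have := mul_le_mul_of_nonneg_left (show -(r₂ * (p : ℤ) ^ 2) + r₁ * (p : ℤ) ^ 2 ≤ 4 * K by linarith)
        (show (0 : ℤ) ≤ 2 * a by positivity)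
      linarith
    have w2 : ((r₂' - r₂) * V₂) * p ^ 2 ≤ 4 * K * V₂ := by
      have := mul_le_mul_of_nonneg_right (show -(r₂ * (p : ℤ) ^ 2) + r₂' * (p : ℤ) ^ 2 ≤ 4 * K by linarith)
        hV2p.le
      linarith
    have w3 : (- (r₁' - r₁) * V₁) * p ^ 2 ≤ 4 * K * V₁ := by
      have := mul_le_mul_of_nonneg_right (show -(r₁' * (p : ℤ) ^ 2) + r₁ * (p : ℤ) ^ 2 ≤ 4 * K by linarith)
        hV1p.le
      linarith
    linarith
  have low : (a : ℤ) * (d + 1) * (2 * K) * p ^ 2 ≤ ((a : ℤ) - e) * (2 * (d + 1)) * (V₁ + V₂ + 2 * a) * p ^ 2 := by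
    apply mul_le_mul_of_nonneg_right _ (by positivity)
    have f1 : (a : ℤ) * (d + 1) ≤ ((a : ℤ) - e) * (2 * (d + 1)) := by
      have := mul_nonneg (show (0 : ℤ) ≤ a - 2 * e by linarith) (show (0 : ℤ) ≤ (d : ℤ) + 1 by positivity)
      linarith
    have f2 : (2 * K : ℤ) ≤ V₁ + V₂ + 2 * a := by rw [hV1, hV2]; linarith
    have f3 : (0 : ℤ) ≤ ((a : ℤ) - e) * (2 * (d + 1)) := by
      have : (0 : ℤ) ≤ (a : ℤ) * (d + 1) := by positivity
      linarith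
    exact mul_le_mul f1 f2 (by positivity) f3
  have fin : ((a : ℤ) * (d + 1) * p ^ 2) * (2 * K) ≤ (6 * K) * (2 * K) := by
    have k1 := mul_le_mul_of_nonneg_left haK hK0'.le
    have k2 := mul_le_mul_of_nonneg_left hV1K hK0'.le
    have k3 := mul_le_mul_of_nonneg_left hV2K hK0'.le
    have k4 : (0 : ℤ) ≤ K * K := mul_self_nonneg _
    have : (8 : ℤ) * a * K + 4 * K * (V₁ + V₂) ≤ (6 * K) * (2 * K) := by linarith
    linarith
  have := le_of_mul_le_mul_right fin (by linarith)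
  exact this

lemma spaced (T : Finset ℕ) (c g D : ℕ) (hg : 1 ≤ g)
    (h1 : ∀ x ∈ T, ∀ y ∈ T, x < y → g ≤ c * (y - x))
    (h2 : ∀ x ∈ T, ∀ y ∈ T, x < y → c * (y - x) ≤ D) : T.card ≤ D / g + 1 := by
  rcases T.eq_empty_or_nonempty with rfl | hT
  · simp
  set m := T.min' hT with hm
  have hmT : m ∈ T := T.min'_mem hT
  have hinj : Set.InjOn (fun x => c * (x - m) / g) T := by
    have key : ∀ x ∈ T, ∀ y ∈ T, x < y → c * (x - m) / g < c * (y - m) / g := by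
      intro x hx y hy hxy
      have hmx : m ≤ x := T.min'_le x hx
      have e1 : c * (y - m) = c * (x - m) + c * (y - x) := by
        rw [← Nat.mul_add]; congr 1; omega
      have e2 := h1 x hx y hy hxy
      calc c * (x - m) / g < c * (x - m) / g + 1 := Nat.lt_succ_self _
        _ = (c * (x - m) + g) / g := by rw [Nat.add_div_right _ (by omega)]
        _ ≤ c * (y - m) / g := Nat.div_le_div_right (by omega)
    intro x hx y hy hxy
    rcases lt_trichotomy x y with h | h | h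
    · exact absurd hxy (key x hx y hy h).ne
    · exact h
    · exact absurd hxy (key y hy x hx h).ne'
  have hmaps : ∀ x ∈ T, c * (x - m) / g ∈ range (D / g + 1) := by
    intro x hx
    rw [mem_range]
    have hmx : m ≤ x := T.min'_le x hx
    rcases hmx.eq_or_lt with h | h
    · rw [← h]; simp
    · exact Nat.lt_succ_of_le (Nat.div_le_div_right (h2 m hmT x hx h))
  have := Finset.card_le_card_of_injOn _ hmaps hinj
  simpa using this

end Pool.Agent.K7.H13.PL
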