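import Pool.Agent.K7.H13.PL.Unc

set_option autoImplicit false

/-! The number of uncovered positions (helper13). -/

namespace Pool.Agent.K7.H13.PL

open Finset

open Classical in
/-- uncovered positions -/
noncomputable def UU (K L : ℕ) : Finset ℕ := (Icc 1 L).filter (fun τ => ¬ Cov K τ)

open Classical in
/-- the index of the obstruction -/
noncomputable def ii (K τ : ℕ) : ℕ := if h : ∃ i, Sol K τ i then h.choose else 0

lemma ii_spec {K τ : ℕ} (h : ∃ i, Sol K τ i) : Sol K τ (ii K τ) := by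
  unfold ii
  rw [dif_pos h]
  exact h.choose_spec

lemma UU_spec {K L τ : ℕ} (h : τ ∈ UU K L) : 1 ≤ τ ∧ τ ≤ L ∧ Sol K τ (ii K τ) := by
  classical
  unfold UU at h
  rw [mem_filter, mem_Icc] at h
  exact ⟨h.1.1, h.1.2, ii_spec (sol_of_not_cov h.1.1 h.2)⟩

theorem unc_card (J K L : ℕ) (hJ : 3 ≤ J) (hL : J ^ 3 * L ≤ K) :
    ((UU K L).card : ℝ) ≤ 481 * K / J ^ 7 + (5 * J ^ 5 + 1) := by
  classical
  set p := J ^ 3 with hp
  set A := J ^ 4 with hA
  have hJ0 : 0 < J := by omega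
  have hp10 : 10 ≤ p := by
    have : 3 ^ 3 ≤ J ^ 3 := Nat.pow_le_pow_left hJ 3
    omega
  have hp0 : 0 < p := by omega
  have hA0 : 0 < A := by positivity
  set S := UU K L with hS
  set Short := S.filter (fun τ => ∃ τ' ∈ S, τ < τ' ∧ τ' ≤ τ + A) with hShort
  set Long := S.filter (fun τ => ¬ ∃ τ' ∈ S, τ < τ' ∧ τ' ≤ τ + A) with hLong
  have hsplit : S.card = Short.card + Long.card := (Finset.card_filter_add_card_filter_not _).symm
  have hlong : Long.card ≤ L / A + 1 := by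
    refine spaced Long 1 A L hA0 ?_ ?_
    · intro x hx y hy hxy
      rw [hLong, mem_filter] at hx hy
      by_contra hcon
      exact hx.2 ⟨y, hy.1, hxy, by omega⟩
    · intro x hx y hy hxy
      rw [hLong, mem_filter] at hx hy
      have := (UU_spec hy.1).2.1
      omega
  set Sae : ℕ × ℕ → Finset ℕ := fun q => S.filter (fun τ => τ + q.1 ∈ S ∧ ii K (τ + q.1) = ii K τ + q.2)
    with hSae
  have hmul : ∀ x, x ∈ S → p * x ≤ K := by
    intro x hx
    exact (Nat.mul_le_mul_left p (UU_spec hx).2.1).trans hL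
  have hsub : Short ⊆ (Icc 1 A ×ˢ Icc 1 (5 * J)).biUnion Sae := by
    intro τ hτ
    rw [hShort, mem_filter] at hτ
    obtain ⟨hτS, τ', hτ'S, hlt, hle⟩ := hτ
    obtain ⟨g1, g2, g3⟩ := UU_spec hτS
    obtain ⟨g1', g2', g3'⟩ := UU_spec hτ'S
    obtain ⟨s1, s2, s3⟩ := sol_step hp10 g1 hlt (hmul _ hτ'S) g3 g3'
    rw [mem_biUnion]
    refine ⟨(τ' - τ, ii K τ' - ii K τ), ?_, ?_⟩
    · rw [mem_product, mem_Icc, mem_Icc]
      refine ⟨⟨by show 1 ≤ τ' - τ; omega, by show τ' - τ ≤ A; omega⟩, ⟨by show 1 ≤ ii K τ' - ii K τ; omega, ?_⟩⟩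
      show ii K τ' - ii K τ ≤ 5 * J
      have e1 : (ii K τ' - ii K τ) * p ≤ (5 * J) * p := by
        calc (ii K τ' - ii K τ) * p ≤ 5 * (τ' - τ) := s3
          _ ≤ 5 * A := by omega
          _ = (5 * J) * p := by rw [hA, hp]; ring
      exact Nat.le_of_mul_le_mul_right e1 hp0
    · rw [hSae]
      simp only [mem_filter]
      have e2 : τ + (τ' - τ) = τ' := by omega
      rw [e2]
      exact ⟨hτS, hτ'S, by omega⟩
  have hcard : ∀ q ∈ Icc 1 A ×ˢ Icc 1 (5 * J), (Sae q).card ≤ (96 * K / p ^ 3) / p + 1 := by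
    intro q hq
    rw [mem_product, mem_Icc, mem_Icc] at hq
    have base : ∀ x ∈ Sae q, ∀ y ∈ Sae q, x < y → q.1 * (y - x) * p ^ 2 ≤ 6 * K ∧ p ≤ 4 * q.1 ∧
        p ≤ 4 * (y - x) := by
      intro x hx y hy hxy
      rw [hSae] at hx hy
      simp only [mem_filter] at hx hy
      obtain ⟨x1, x2, x3⟩ := hx
      obtain ⟨y1, y2, y3⟩ := hy
      have sx := (UU_spec x1).2.2
      have sx' := (UU_spec x2).2.2
      have sy := (UU_spec y1).2.2
      have sy' := (UU_spec y2).2.2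
      have hx1 := (UU_spec x1).1
      refine ⟨?_, ?_, ?_⟩
      · rw [x3] at sx'
        rw [y3] at sy'
        exact sol_pair hp10 hx1 hq.1.1 hxy (hmul _ y2) sx sx' sy sy'
      · have := (sol_step hp10 hx1 (by omega : x < x + q.1) (hmul _ x2) sx sx').2.1
        omega
      · exact (sol_step hp10 hx1 hxy (hmul _ y1) sx sy).2.1
    refine spaced (Sae q) 4 p (96 * K / p ^ 3) hp0 (fun x hx y hy hxy => (base x hx y hy hxy).2.2) ?_
    intro x hx y hy hxy
    obtain ⟨b1, b2, -⟩ := base x hx y hy hxy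
    rw [Nat.le_div_iff_mul_le (by positivity)]
    calc 4 * (y - x) * p ^ 3 = 4 * ((y - x) * p ^ 2) * p := by ring
      _ ≤ 4 * ((y - x) * p ^ 2) * (4 * q.1) := Nat.mul_le_mul_left _ b2
      _ = 16 * (q.1 * (y - x) * p ^ 2) := by ring
      _ ≤ 16 * (6 * K) := Nat.mul_le_mul_left _ b1
      _ = 96 * K := by ring
  have hshort : Short.card ≤ (A * (5 * J)) * ((96 * K / p ^ 3) / p + 1) := by
    refine (card_le_card hsub).trans (card_biUnion_le.trans ?_)
    refine (sum_le_card_nsmul _ _ _ hcard).trans (le_of_eq ?_)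
    rw [card_product, Nat.card_Icc, Nat.card_Icc, smul_eq_mul]
    simp
  -- real form
  have hJr : (0 : ℝ) < J := by exact_mod_cast hJ0
  have hLr : (L : ℝ) ≤ K / J ^ 3 := by
    rw [le_div_iff₀ (by positivity), mul_comm]
    exact_mod_cast hL
  have r1 : ((L / A : ℕ) : ℝ) ≤ K / J ^ 7 := by
    refine (Nat.cast_div_le).trans ?_
    rw [hA]
    push_cast
    rw [div_le_div_iff₀ (by positivity) (by positivity)]
    rw [le_div_iff₀ (by positivity)] at hLr
    calc (L : ℝ) * (J : ℝ) ^ 7 = ((L : ℝ) * (J : ℝ) ^ 3) * (J : ℝ) ^ 4 := by ring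
      _ ≤ (K : ℝ) * J ^ 4 := mul_le_mul_of_nonneg_right hLr (by positivity)
  have r2 : (((96 * K / p ^ 3) / p : ℕ) : ℝ) ≤ 96 * K / J ^ 12 := by
    refine (Nat.cast_div_le).trans ?_
    have : ((96 * K / p ^ 3 : ℕ) : ℝ) ≤ 96 * K / (p : ℝ) ^ 3 := by
      refine (Nat.cast_div_le).trans (le_of_eq ?_)
      push_cast
      ring
    refine (div_le_div_of_nonneg_right this (by positivity)).trans (le_of_eq ?_)
    rw [hp]
    push_cast
    field_simp
  have hl : (Long.card : ℝ) ≤ K / J ^ 7 + 1 := by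
    have : (Long.card : ℝ) ≤ ((L / A : ℕ) : ℝ) + 1 := by exact_mod_cast hlong
    linarith
  have hs : (Short.card : ℝ) ≤ 480 * K / J ^ 7 + 5 * J ^ 5 := by
    have h1 : (Short.card : ℝ) ≤ (J ^ 4 * (5 * J)) * ((((96 * K / p ^ 3) / p : ℕ) : ℝ) + 1) := by
      have : (Short.card : ℝ) ≤ (((A * (5 * J)) * ((96 * K / p ^ 3) / p + 1) : ℕ) : ℝ) := by
        exact_mod_cast hshort
      rw [hA] at this
      push_cast at this ⊢
      exact this
    have h2 : (((J : ℝ) ^ 4 * (5 * J)) * ((((96 * K / p ^ 3) / p : ℕ) : ℝ) + 1)) ≤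
        ((J : ℝ) ^ 4 * (5 * J)) * (96 * K / J ^ 12 + 1) :=
      mul_le_mul_of_nonneg_left (by linarith) (by positivity)
    refine (h1.trans h2).trans (le_of_eq ?_)
    field_simp
    ring
  have : (S.card : ℝ) = Short.card + Long.card := by exact_mod_cast hsplit
  rw [this]
  have e : (481 : ℝ) * K / J ^ 7 = 480 * K / J ^ 7 + K / J ^ 7 := by ring
  rw [e]
  linarith

end Pool.Agent.K7.H13.PL
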